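import Pool.Agent.TH669.AD.Fin

set_option autoImplicit false

/-!
# Weak evasiveness for almost all numbers of variables and small transitive groups (MP_d4e2f9_lc)

For every `η > 0` there is `K` such that for all `x ≥ 8` and `s ≥ 1` all but at most `η x` of the
integers `n ≤ x` have the following property: every non-constant monotone Boolean function of `n`
variables which is invariant under a transitive group of order at most `s n` has decision tree
complexity at least `n / (s log x) ^ K`.

For `s = 1` these are the functions invariant under a regular group, that is, under the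
translations of an arbitrary group of order `n`; if `s = n ^ o(1)`, then the bound is
`n ^ (1 - o(1))` for almost all `n`, as in the weak evasiveness conjecture.

Proof.  For most `n` the primes `p > y := (s log x) ^ O(1)` which divide `n` divide it only once
and no divisor `d > 1` of the order `n t` of the group, `t ≤ s`, is congruent to `1` modulo such a
`p`. By Sylow's theorem the Sylow `p`-subgroups are normal; their product `Γ` is a normal cyclic
subgroup, all orbits of which have `v` points, where `v` is the product of these primes. By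
Mertens' theorem `n / v` is at most `(s log x) ^ O(1)` for most `n`. Let `T` be a minimal
`Γ`-invariant set on which `f` is `1`. The complex of the subsets of `T` on which `f` is `0` has
the boundary of a simplex as its fixed point set under `Γ`, hence it is not acyclic by the
Lefschetz fixed point theorem, and every decision tree for `f` has depth at least `|T|`
(Kahn, Saks, Sturtevant). The same holds for a minimal `Γ`-invariant set `T'` such that `f` is `0`
on the complement. As `g T` and `T'` meet in a `Γ`-invariant set for all `g`, which has at least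
`v` points, averaging over the group gives `|T| |T'| ≥ n v`.
-/

namespace Pool.Agent.Results.MP_d4e2f9_lc.AlmostAllDegrees

/-- `f` is computed by a decision tree of depth at most `k`, in the words of the frozen statement
of the problem: every predicate closed under the formation of decision trees holds for it. -/
def DepthLe {n : ℕ} (k : ℕ) (f : (Fin n → Bool) → Bool) : Prop :=
  ∀ P : ℕ → ((Fin n → Bool) → Bool) → Prop,
    (∀ (m : ℕ) (g : (Fin n → Bool) → Bool), (∀ x y, g x = g y) → P m g) →
    (∀ (m : ℕ) (g : (Fin n → Bool) → Bool) (i : Fin n),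
       P m (fun x => g (Function.update x i false)) →
       P m (fun x => g (Function.update x i true)) → P (m + 1) g) →
    P k f

/-- `G` is transitive. -/
def Trans {n : ℕ} (G : Subgroup (Equiv.Perm (Fin n))) : Prop := ∀ i j : Fin n, ∃ σ ∈ G, σ i = j

/-- Every non-constant monotone function of `n` variables which is invariant under a transitive
group of order at most `s n` has decision tree complexity at least `n / B`. -/
def Bound (n s : ℕ) (B : ℝ) : Prop :=
  ∀ G : Subgroup (Equiv.Perm (Fin n)), Trans G → Nat.card G ≤ s * n →
    ∀ f : (Fin n → Bool) → Bool, Monotone f → (∃ x y, f x ≠ f y) →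
      (∀ σ ∈ G, ∀ x : Fin n → Bool, f (x ∘ σ) = f x) →
      ∀ k : ℕ, DepthLe k f → (n : ℝ) ≤ B * k

/-- For all but at most `η x` of the integers `n ≤ x` every non-constant monotone function of `n`
variables invariant under a transitive group of order at most `s n` has decision tree complexity
at least `n / (s log x) ^ K`. -/
theorem result : ∀ η : ℝ, 0 < η → ∃ K : ℕ, ∀ x s : ℕ, 8 ≤ x → 1 ≤ s →
    ({n : ℕ | 1 ≤ n ∧ n ≤ x ∧ ¬ Bound n s ((s * Real.log x) ^ K)}.ncard : ℝ) ≤ η * x := by
  intro η hη
  obtain ⟨K, hK⟩ := Pool.Agent.TH669.AD.few_bad' η hη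
  refine ⟨K, fun x s hx hs => ?_⟩
  obtain ⟨y, hsy, hy⟩ := hK x s hx hs
  refine le_trans ?_ hy
  have hL : (0 : ℝ) ≤ (s : ℝ) * Real.log x := mul_nonneg (Nat.cast_nonneg s)
    (Real.log_natCast_nonneg x)
  have hsub : {n : ℕ | 1 ≤ n ∧ n ≤ x ∧ ¬ Bound n s ((s * Real.log x) ^ K)} ⊆
      {n : ℕ | 1 ≤ n ∧ n ≤ x ∧
        ¬ Pool.Agent.TH669.AD.GoodDeg y s (((s : ℝ) * Real.log x) ^ (2 * K)) n} := by
    rintro n ⟨h1, h2, h3⟩
    refine ⟨h1, h2, fun hg => h3 ?_⟩
    intro G htr hG f hf hne hinv k hk
    have h := Pool.Agent.TH669.AD.good_bound (pow_nonneg hL _) hsy hg (by omega) G htr hG f hf hne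
      hinv (Pool.Agent.TH669.AD.FS_dec hk)
    have h4 : (((s : ℝ) * Real.log x) ^ K * k) ^ 2 =
        ((s : ℝ) * Real.log x) ^ (2 * K) * (k : ℝ) ^ 2 := by ring
    rw [← h4] at h
    exact (sq_le_sq₀ (Nat.cast_nonneg n) (mul_nonneg (pow_nonneg hL _) (Nat.cast_nonneg k))).1 h
  have hfin : {n : ℕ | 1 ≤ n ∧ n ≤ x ∧
        ¬ Pool.Agent.TH669.AD.GoodDeg y s (((s : ℝ) * Real.log x) ^ (2 * K)) n}.Finite :=
    (Set.finite_Icc 1 x).subset fun n hn => ⟨hn.1, hn.2.1⟩
  exact_mod_cast Set.ncard_le_ncard hsub hfin

end Pool.Agent.Results.MP_d4e2f9_lc.AlmostAllDegrees
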