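import Mathlib
import Pool.Agent.TH669.TC.Fin

set_option autoImplicit false

/-!
# Weak evasiveness for monotone circuits with two layers of threshold gates (MP_d4e2f9_lc)

Every non-constant function `f` of `n` variables which is invariant under a transitive group and
is computed by a monotone circuit of the form

  `K`-ary gate ∘ threshold gates of fan-in `M` ∘ `L`-ary gates ∘ threshold gates

(the threshold gates have arbitrary non-negative real weights, the `K`-ary and `L`-ary gates are
arbitrary monotone functions) has decision tree complexity

  `D(f) ≥ 3 n / (64 K L (1 + ln (16 K M L)))`.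

So the weak evasiveness conjecture holds, with `n^(1-o(1))`, for all transitive functions with
such circuits with `K, L ≤ n^(o(1))` and `M ≤ exp (n^(o(1)))`; for `K = L = 1` these are the
monotone depth-two threshold circuits, which contain the DNFs and CNFs.

Proof.  Fix a density `p` at which the weighted number of decided gates crosses the middle; every
gate which is undecided at density `p` is dominated by a linear function of total weight
`O (ln M / p)` (exponential moments and Markov's inequality), and so is its dual. Averaging a
certificate of `f = 1` over the group shows that it has at least `Ω (n p / ln M)` ones, a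
certificate of `f = 0` has at least `Ω (n (1 - p) / ln M)` zeros. A decision tree finds a new one
with probability `p` per query, and a new zero with probability `1 - p`.
-/

namespace Pool.Agent.Results.MP_d4e2f9_lc.DepthTwoThreshold

/-- `f` is computed by a decision tree of depth at most `k`, in the words of the frozen statement
of the problem: every predicate closed under the formation of decision trees holds for it. -/
def DepthLe {n : ℕ} (k : ℕ) (f : (Fin n → Bool) → Bool) : Prop :=
  ∀ P : ℕ → ((Fin n → Bool) → Bool) → Prop,
    (∀ (m : ℕ) (g : (Fin n → Bool) → Bool), (∀ x y, g x = g y) → P m g) →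
    (∀ (m : ℕ) (g : (Fin n → Bool) → Bool) (i : Fin n),
       P m (fun x => g (Function.update x i false)) →
       P m (fun x => g (Function.update x i true)) → P (m + 1) g) →
    P k f

/-- The threshold gate with weights `u` and threshold `t`: it is true iff the true inputs have
total weight at least `t`. -/
noncomputable def thr {m : ℕ} (u : Fin m → ℝ) (t : ℝ) (x : Fin m → Bool) : Bool :=
  decide (t ≤ ∑ i, if x i = true then u i else 0)

/-- A monotone circuit with `n` inputs, `K * M * L` bottom threshold gates, `K * M` monotone gates
of fan-in `L`, `K` threshold gates of fan-in `M` and a monotone top gate of fan-in `K`. -/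
structure Circuit (n K M L : ℕ) where
  /-- weights of the bottom threshold gates -/
  bw : Fin K → Fin M → Fin L → Fin n → ℝ
  /-- thresholds of the bottom threshold gates -/
  bt : Fin K → Fin M → Fin L → ℝ
  /-- middle gates of fan-in `L` -/
  mid : Fin K → Fin M → (Fin L → Bool) → Bool
  /-- weights of the upper threshold gates -/
  w : Fin K → Fin M → ℝ
  /-- thresholds of the upper threshold gates -/
  t : Fin K → ℝ
  /-- top gate of fan-in `K` -/
  top : (Fin K → Bool) → Bool
  bw_nonneg : ∀ i j l v, 0 ≤ bw i j l v
  w_nonneg : ∀ i j, 0 ≤ w i j
  mid_mono : ∀ i j, Monotone (mid i j)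
  top_mono : Monotone top

/-- The function computed by the circuit. -/
noncomputable def Circuit.eval {n K M L : ℕ} (C : Circuit n K M L) (x : Fin n → Bool) : Bool :=
  C.top fun i => thr (C.w i) (C.t i) fun j => C.mid i j fun l => thr (C.bw i j l) (C.bt i j l) x

theorem mo_of {m : ℕ} {g : (Fin m → Bool) → Bool} (hg : Monotone g) : Pool.Agent.TH669.TC.Mo g := by
  intro a b hab ha
  have h1 : a ≤ b := by
    intro i
    rw [Bool.le_iff_imp]
    exact hab i
  have h2 := hg h1
  rw [ha] at h2
  exact Bool.eq_true_of_true_le h2

/-- **Weak evasiveness for monotone circuits with two layers of threshold gates.** Let `f` be a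
non-constant function of `n` variables, invariant under a transitive group of permutations of the
variables, which is computed by a monotone circuit as above. Then every decision tree for `f` has
depth `k ≥ 3 n / (64 K L (1 + ln (16 K M L)))`. -/
theorem result {n K M L : ℕ} (C : Circuit n K M L) (f : (Fin n → Bool) → Bool)
    (hf : ∀ x, f x = C.eval x) (hnc : ∃ x y, f x ≠ f y)
    (htr : ∀ i j : Fin n, ∃ σ : Equiv.Perm (Fin n), σ i = j ∧ ∀ x : Fin n → Bool, f (x ∘ σ) = f x)
    (k : ℕ) (hk : DepthLe k f) :
    3 * (n : ℝ) ≤ 64 * (K * L * (1 + Real.log (16 * K * M * L))) * k := by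
  obtain ⟨x, y, hxy⟩ := hnc
  have hK : 0 < K := by
    rcases Nat.eq_zero_or_pos K with h | h
    · subst h
      refine absurd ?_ hxy
      rw [hf, hf]
      exact congrArg C.top (Subsingleton.elim _ _)
    · exact h
  have hM : 0 < M := by
    rcases Nat.eq_zero_or_pos M with h | h
    · subst h
      refine absurd ?_ hxy
      rw [hf, hf]
      refine congrArg C.top (funext fun i => ?_)
      exact congrArg _ (Subsingleton.elim _ _)
    · exact h
  have hL : 0 < L := by
    rcases Nat.eq_zero_or_pos L with h | h
    · subst h
      refine absurd ?_ hxy
      rw [hf, hf]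
      refine congrArg C.top (funext fun i => congrArg _ (funext fun j => ?_))
      exact congrArg _ (Subsingleton.elim _ _)
    · exact h
  have htree : Pool.Agent.TH669.TC.Tree k f :=
    hk (fun m g => Pool.Agent.TH669.TC.Tree m g)
      (fun m g h => Pool.Agent.TH669.TC.tree_const m g h)
      (fun m g i h0 h1 => Pool.Agent.TH669.TC.tree_node m g i h0 h1)
  refine Pool.Agent.TH669.TC.main f ⟨x, y, hxy⟩ htr hK hM hL
    (fun i j l => thr (C.bw i j l) (C.bt i j l))
    (fun i j l => ⟨C.bw i j l, C.bt i j l, C.bw_nonneg i j l, rfl⟩)
    C.mid C.w C.t C.top (fun i j => mo_of (C.mid_mono i j)) C.w_nonneg (mo_of C.top_mono) ?_ k htree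
  intro z
  rw [hf z]
  rfl

end Pool.Agent.Results.MP_d4e2f9_lc.DepthTwoThreshold
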