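import Pool.Agent.TH669.OL.NilMain

set_option autoImplicit false

/-!
# Transitive groups with a normal Oliver subgroup (MP_d4e2f9_lc)

Let `Γ` be a group with subgroups `P ≤ H ≤ Γ` such that `P` is a `p`-group and normal in `H`, the
quotient `H / P` is cyclic and `H` is normal in `Γ` of index a power of `q`. By the theorems of
Smith, Lefschetz and Oliver a non-constant monotone function invariant under `Γ` is evasive if `Γ`
is transitive. Here `Γ` is a normal subgroup, with `r` orbits, of a transitive group `G` of
symmetries of `f`; nothing is assumed about `G`. Then `f` has decision tree complexity at least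
`n / √r`. This is at least `n ^ (1 - ε)` if `r ≤ n ^ (2 ε)`.

Proof.  Let `T` be a minimal `Γ`-invariant set on which `f` is `1`. The complex of the subsets of `T`
on which `f` is `0` has the boundary of a simplex as its fixed point complex under `Γ`, hence it is
not acyclic, and every decision tree for `f` has depth at least `|T|`. The same holds for a minimal
`Γ`-invariant set `T'` such that `f` is `0` on the complement. As `g T` and `T'` meet in a
`Γ`-invariant set for all `g` in `G`, which has at least `n / r` points, averaging over `G` gives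
`|T| |T'| ≥ n ^ 2 / r`.
-/

namespace Pool.Agent.Results.MP_d4e2f9_lc.NormalOliver

/-- `f` is computed by a decision tree of depth at most `k`, in the words of the frozen statement
of the problem: every predicate closed under the formation of decision trees holds for it. -/
def DepthLe {n : ℕ} (k : ℕ) (f : (Fin n → Bool) → Bool) : Prop :=
  ∀ P : ℕ → ((Fin n → Bool) → Bool) → Prop,
    (∀ (m : ℕ) (g : (Fin n → Bool) → Bool), (∀ x y, g x = g y) → P m g) →
    (∀ (m : ℕ) (g : (Fin n → Bool) → Bool) (i : Fin n),
       P m (fun x => g (Function.update x i false)) →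
       P m (fun x => g (Function.update x i true)) → P (m + 1) g) →
    P k f

/-- `G` is transitive. -/
def Trans {n : ℕ} (G : Subgroup (Equiv.Perm (Fin n))) : Prop := ∀ i j : Fin n, ∃ σ ∈ G, σ i = j

/-- The function `f` is monotone, non-constant and invariant under `G`. -/
def Invariant {n : ℕ} (G : Subgroup (Equiv.Perm (Fin n))) (f : (Fin n → Bool) → Bool) : Prop :=
  Monotone f ∧ (∃ x y, f x ≠ f y) ∧ ∀ σ ∈ G, ∀ x : Fin n → Bool, f (x ∘ σ) = f x

/-- `Γ` is an Oliver group: it is generated by a `p`-group `P`, a permutation `c` which normalizes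
`P`, and a `q`-group `S` which normalizes `⟨P, c⟩` (`p`, `q` primes, not necessarily different).
Equivalently `Γ` has subgroups `P ≤ H ≤ Γ` such that `P` is a `p`-group normal in `H`, `H / P` is
cyclic, `H` is normal in `Γ` and `Γ / H` is a `q`-group. -/
def OliverGroup {n : ℕ} (Γ : Subgroup (Equiv.Perm (Fin n))) : Prop :=
  ∃ (p q : ℕ) (P S : Subgroup (Equiv.Perm (Fin n))) (c : Equiv.Perm (Fin n)),
    p.Prime ∧ q.Prime ∧ IsPGroup p P ∧ IsPGroup q S ∧
    (∀ x ∈ P, c⁻¹ * x * c ∈ P) ∧
    (∀ s ∈ S, ∀ x ∈ P ⊔ Subgroup.zpowers c, s⁻¹ * x * s ∈ P ⊔ Subgroup.zpowers c) ∧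
    Γ = P ⊔ Subgroup.zpowers c ⊔ S

/-- The number of orbits of `Γ`. -/
noncomputable def orbits {n : ℕ} (Γ : Subgroup (Equiv.Perm (Fin n))) : ℕ :=
  Nat.card (MulAction.orbitRel.Quotient Γ (Fin n))

/-- **Weak evasiveness for transitive groups with a normal Oliver subgroup.**
(1) If the transitive group `G` has a normal Oliver subgroup `Γ` with `r` orbits, then every decision
tree for a non-constant monotone `G`-invariant function of `n` variables has depth at least
`n / √r`.
(2) If `G` is a nilpotent transitive group of degree `n` and `p ^ a`, `q ^ b` are prime powers which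
divide `n`, then every decision tree for a non-constant monotone `G`-invariant function of `n`
variables has depth at least the square root of `n` times the least common multiple of `p ^ a`,
`q ^ b` and the exponent of the center of `G`; this exponent is divisible by all primes which divide
`n`. -/
theorem result :
    (∀ (n : ℕ) (G Γ : Subgroup (Equiv.Perm (Fin n))), Trans G → Γ ≤ G →
      (∀ g ∈ G, ∀ h ∈ Γ, g * h * g⁻¹ ∈ Γ) → OliverGroup Γ →
      ∀ f : (Fin n → Bool) → Bool, Invariant G f → ∀ k : ℕ, DepthLe k f →
        (n : ℝ) / Real.sqrt (orbits Γ) ≤ k) ∧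
    (∀ (n : ℕ) (G : Subgroup (Equiv.Perm (Fin n))), 1 ≤ n → Trans G → Group.IsNilpotent G →
      (∏ p ∈ n.primeFactors, p ∣ Monoid.exponent (Subgroup.center G)) ∧
      ∀ f : (Fin n → Bool) → Bool, Invariant G f → ∀ k : ℕ, DepthLe k f →
        ∀ p q a b : ℕ, p.Prime → q.Prime → p ^ a ∣ n → q ^ b ∣ n →
          n * Nat.lcm (Nat.lcm (p ^ a) (q ^ b)) (Monoid.exponent (Subgroup.center G)) ≤
            k ^ 2) := by
  constructor
  · rintro n G Γ htr hle hnorm ⟨p, q, P, S, c, hp, hq, hP, hS, hc, hSn, rfl⟩ f ⟨hf, hne, hG⟩ k hk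
    have : Fact p.Prime := ⟨hp⟩
    have : Fact q.Prime := ⟨hq⟩
    have hcrit := Pool.Agent.TH669.OL.crit_oliver p q P S c hP hS hc hSn
    have h := Pool.Agent.TH669.OL.normal_bound G _ hle hnorm htr hcrit f hf hne hG
      (Pool.Agent.TH669.AD.FS_dec hk)
    unfold orbits
    set r := Nat.card (MulAction.orbitRel.Quotient
      (P ⊔ Subgroup.zpowers c ⊔ S : Subgroup (Equiv.Perm (Fin n))) (Fin n)) with hr
    have h' : (n : ℝ) ^ 2 ≤ r * (k : ℝ) ^ 2 := by exact_mod_cast h
    have h2 : (n : ℝ) ≤ k * Real.sqrt r := by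
      apply le_of_sq_le_sq _ (by positivity)
      rw [mul_pow, Real.sq_sqrt (Nat.cast_nonneg r)]
      linarith
    exact div_le_of_le_mul₀ (Real.sqrt_nonneg _) (Nat.cast_nonneg k) h2
  · intro n G hn htr hnil
    refine ⟨Pool.Agent.TH669.OL.rad_dvd G hn hnil htr, ?_⟩
    rintro f ⟨hf, hne, hG⟩ k hk p q a b hp hq ha hb
    exact Pool.Agent.TH669.OL.nil_bound G hnil htr f hf hne hG
      (Pool.Agent.TH669.AD.FS_dec hk) p q hp hq a b ha hb

end Pool.Agent.Results.MP_d4e2f9_lc.NormalOliver
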