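import Mathlib
import Pool.Agent.TH431.GQ.Fin

set_option autoImplicit false

/-!
# Weak evasiveness for monotone functions on subspaces of a finite vector space (MP_d4e2f9_lc)

Let `V` be a vector space of dimension `m` over the field with `q` elements, `R` a subspace of
codimension less than `k`, `G` the group of all linear automorphisms `g` of `V` with `g R = R`, and
`Gr R k` the set of the `k`-dimensional subspaces `W` with `W + R = V` (one orbit of `G`).
Every non-constant monotone `G`-invariant Boolean function on the variables `Gr R k` has decision
tree complexity at least `q ^ (k (m - k))`, hence at least `(1 - 1/q - 1/q²) n ≥ n / 4` where `n` is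
the number of variables. For `R = V` the variables are all `k`-subspaces and `G = GL_m(q)`; for a
hyperplane `R` they are the `(k-1)`-flats of an affine space and `G` is (up to scalars) the affine
group. More generally the variables may be any finite `G`-set `X` with a `G`-map to `Gr R k`
(for instance `k`-frames, or flags with top dimension `k`).

Proof. A decision tree of depth `d` does not see an orbit with more than `d` elements of a group
`P ⋊ C`, `P` a `p`-group and `C` cyclic (Smith theory and the Lefschetz number). For subspaces
`S ⊆ R'` with `codim R' = k - 1` such a group, with `P` generated by `Hom(V / R', R')` and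
`Hom(V / S, S)` and `C` a Singer cycle of `R' / S`, is transitive on the `W` with `W + R' = V` and
`W ∩ S = 0`, and there are at least `q ^ (k (m - k))` of them. One descends from all `W` to none
through the sets of all `W` with `W ∩ T ≠ 0`, replacing `T` by a hyperplane `T'` of `T`: choose a
hyperplane `R'` of `R` with `R' ∩ T = T'`, add the `W` with `W + R' = V`, and remove those of them
with `W ∩ T' = 0` by the same argument for `R'` in place of `R` (their traces on `R'` have
dimension one less).
-/

namespace Pool.Agent.Results.MP_d4e2f9_lc.SubspaceProperties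

/-- `f` is computed by a decision tree of depth at most `d`, in the words of the frozen statement
of the problem: every predicate closed under the formation of decision trees holds for it. -/
def DepthLe {X : Type} [DecidableEq X] (d : ℕ) (f : (X → Bool) → Bool) : Prop :=
  ∀ P : ℕ → ((X → Bool) → Bool) → Prop,
    (∀ (m : ℕ) (g : (X → Bool) → Bool), (∀ x y, g x = g y) → P m g) →
    (∀ (m : ℕ) (g : (X → Bool) → Bool) (i : X),
       P m (fun x => g (Function.update x i false)) →
       P m (fun x => g (Function.update x i true)) → P (m + 1) g) →
    P d f

variable {F V : Type} [Field F] [AddCommGroup V] [Module F V]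

/-- The subspaces `W` of dimension `k` with `W + R = V`. -/
abbrev Gr (R : Submodule F V) (k : ℕ) : Type :=
  {W : Submodule F V // Module.finrank F W = k ∧ W ⊔ R = ⊤}

/-- The group of the linear automorphisms `g` of `V` with `g R = R`. -/
def Stab (R : Submodule F V) : Subgroup (V ≃ₗ[F] V) where
  carrier := {g | R.map (g : V →ₗ[F] V) = R}
  mul_mem' := (TH431.GQ.Stb R).mul_mem'
  one_mem' := (TH431.GQ.Stb R).one_mem'
  inv_mem' := (TH431.GQ.Stb R).inv_mem'

/-- **Weak evasiveness for functions on subspaces.** `X` is a finite set with an action of
`G = Stab R` and a `G`-equivariant map `π` to the subspaces `W` of dimension `k` with `W + R = V`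
(for instance `X = Gr R k` itself). A non-constant monotone `G`-invariant function `f` of Boolean
variables indexed by `X` needs decision trees of depth at least `q ^ (k (m - k))`, which is at
least `(1 - 1/q - 1/q²)` times the number of these subspaces. -/
theorem result [Finite F] [FiniteDimensional F V] (R : Submodule F V) (k : ℕ)
    (hR : Module.finrank F V < Module.finrank F R + k)
    {X : Type} [Finite X] [DecidableEq X] [MulAction (Stab R) X] (π : X → Gr R k)
    (hπ : ∀ (g : Stab R) (x : X), (π (g • x)).1 = (π x).1.map (g.1 : V →ₗ[F] V))
    (f : (X → Bool) → Bool) (hmono : Monotone f) (hne : ∃ x y, f x ≠ f y)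
    (hinv : ∀ (g : Stab R) (x : X → Bool), f (fun v => x (g • v)) = f x)
    (d : ℕ) (hd : DepthLe d f) :
    Nat.card F ^ (k * (Module.finrank F V - k)) ≤ d ∧
      (1 - 1 / (Nat.card F : ℝ) - 1 / (Nat.card F : ℝ) ^ 2) * (Nat.card (Gr R k) : ℝ) ≤ d := by
  let _ : MulAction (TH431.GQ.Stb R) X := (inferInstance : MulAction (Stab R) X)
  exact TH431.GQ.final (R₀ := R) hR π (fun g x => Subtype.ext (hπ g x)) f hmono hne hinv hd

/-- The tautological case `X = Gr R k`, with invariance spelled out: if `x W = y (g W)` for all
`W`, then `f x = f y`. -/
theorem subspaces [Finite F] [FiniteDimensional F V] (R : Submodule F V) (k : ℕ)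
    (hR : Module.finrank F V < Module.finrank F R + k) [DecidableEq (Gr R k)]
    (f : (Gr R k → Bool) → Bool) (hmono : Monotone f) (hne : ∃ x y, f x ≠ f y)
    (hinv : ∀ g : V ≃ₗ[F] V, R.map (g : V →ₗ[F] V) = R → ∀ x y : Gr R k → Bool,
      (∀ W W' : Gr R k, W'.1 = W.1.map (g : V →ₗ[F] V) → x W = y W') → f x = f y)
    (d : ℕ) (hd : DepthLe d f) :
    Nat.card F ^ (k * (Module.finrank F V - k)) ≤ d ∧
      (1 - 1 / (Nat.card F : ℝ) - 1 / (Nat.card F : ℝ) ^ 2) * (Nat.card (Gr R k) : ℝ) ≤ d := by
  let _ : MulAction (Stab R) (Gr R k) :=
    (inferInstance : MulAction (TH431.GQ.Stb R) (TH431.GQ.Gr R k))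
  have hV : Finite V := Module.finite_of_finite F
  have hSub : Finite (Submodule F V) := Finite.of_injective (fun W : Submodule F V => (W : Set V))
    SetLike.coe_injective
  refine result R k hR (fun W => W) (fun g W => rfl) f hmono hne ?_ d hd
  intro g x
  refine hinv g.1 g.2 _ _ ?_
  intro W W' h
  have : g • W = W' := Subtype.ext h.symm
  rw [this]

end Pool.Agent.Results.MP_d4e2f9_lc.SubspaceProperties
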